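import Pool.Agent.MP_66cee2_co.H11.SpecF
import Pool.Agent.MP_66cee2_co.XI.Edge
import Pool.Agent.MP_66cee2_co.XI.Cls
import Pool.Agent.MP_66cee2_co.XI.ExhI
import Pool.Agent.MP_66cee2_co.XI.Rem
import Pool.Agent.MP_66cee2_co.XI.Null
import Pool.Agent.MP_66cee2_co.XI.Coef
import Pool.Agent.MP_66cee2_co.XI.Sig

/-
The edge identity for two fields.
-/

namespace Pool.Agent.MP_66cee2_co.H11

open MeasureTheory Set Filter Metric Topology Pool.Agent.MP_66cee2_co.X
  Pool.Agent.MP_66cee2_co.XI Pool.Agent.MP_66cee2_co.D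
open scoped ENNReal RealInnerProductSpace

namespace Edge2x

variable {d n : ℕ}

open EdgeA in
theorem lz_small {a b u v : Ix n → ℝ} (huv : lz u v = 0) {M ε J l m : ℝ} (ha : ∀ i, |a i| ≤ M)
    (hb : ∀ i, |b i| ≤ M) (hε : ε ≤ J) (e1 : ∀ i, |a i - l * u i| ≤ ε)
    (e2 : ∀ i, |b i - m * v i| ≤ ε) : |lz a b| ≤ (2 * n + 2) * (2 * M + J) * ε := by
  have e3 : ∀ i, |l * u i| ≤ M + J := fun i => by
    have f1 := abs_le.mp (e1 i)
    have f2 := abs_le.mp (ha i)
    rw [abs_le]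
    constructor <;> linarith [f1.1, f1.2, f2.1, f2.2]
  rw [lz_split a b u v l m, huv, mul_zero, add_zero]
  refine (abs_add_le _ _).trans ((add_le_add (abs_lz_le e1 hb) (abs_lz_le e3 e2)).trans ?_)
  exact le_of_eq (by ring)

theorem deg_le (Q : Ix n → MP d) (a : Ix n) :
    (Q a).totalDegree ≤ Finset.univ.sup fun b => (Q b).totalDegree :=
  Finset.le_sup (f := fun b => (Q b).totalDegree) (Finset.mem_univ a)

theorem up {g : E d → Ix n → ℝ} {x : E d} {Q : Ix n → MP d} {C J τ : ℝ} {K : ℕ} (hτ : 0 < τ)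
    (hC : C ≤ J) (h : Thin {z | ¬ ∃ l : ℝ, ∀ a, |ev (Q a) z - l * g z a| ≤ C * τ ^ K} x τ) :
    Thin {z | ¬ ∃ l : ℝ, ∀ a, |ev (Q a) z - l * g z a| ≤ J * τ ^ K} x τ := by
  refine ExhIA.thin_mono h fun z hz hn => hz ?_
  obtain ⟨l, hl⟩ := hn
  exact ⟨l, fun a => (hl a).trans (mul_le_mul_of_nonneg_right hC (pow_pos hτ K).le)⟩

end Edge2x

open EdgeA in
theorem sEdge2 : SEdge2 := by
  intro d n g g' hd mg mg' ho x y Q Q' hQ hQ' hxy z w hw
  have hS : XI.SSig := XI.sSig sNull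
  have hC : SCoef := sCoef
  set D : ℕ := max (Finset.univ.sup fun b => (Q b).totalDegree)
    (Finset.univ.sup fun b => (Q' b).totalDegree) with hD
  have dQ : ∀ a, (Q a).totalDegree ≤ D := fun a => (Edge2x.deg_le Q a).trans (le_max_left _ _)
  have dQ' : ∀ a, (Q' a).totalDegree ≤ D := fun a => (Edge2x.deg_le Q' a).trans (le_max_right _ _)
  clear_value D
  obtain ⟨C, hC0, hR⟩ := sRem sNull d (D + D)
  obtain ⟨C1, τ1, hτ1, p1⟩ := hQ (4 * D + 1)
  obtain ⟨C2, τ2, hτ2, p2⟩ := hQ' (4 * D + 1)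
  obtain ⟨M1, hM1, b1⟩ := ClsA.bdd Q x
  obtain ⟨M2, hM2, b2⟩ := ClsA.bdd Q' y
  have hae : ∀ᵐ w ∂sig d, ∀ᵐ z, lz (g z) (g' (z + w)) = 0 := by
    refine (Measure.ae_ae_comm ?_).mp ho
    have h2 : Measurable fun p : E d × E d => lz (g p.1) (g' (p.1 + p.2)) := by
      simp only [lz_eq]
      fun_prop
    exact h2 (measurableSet_singleton 0)
  set J : ℝ := max (max C1 C2) 0 with hJ
  have hJ0 : 0 ≤ J := le_max_right _ _
  have hJ1 : C1 ≤ J := (le_max_left _ _).trans (le_max_left _ _)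
  have hJ2 : C2 ≤ J := (le_max_right _ _).trans (le_max_left _ _)
  clear_value J
  set M : ℝ := max M1 M2 with hM
  have hM0 : 0 ≤ M := hM1.trans (le_max_left _ _)
  set C0 : ℝ := (2 * n + 2) * (2 * M + J) with hC0d
  have hC0' : 0 ≤ C0 := by positivity
  set R : ℝ := ‖z - x‖ + 1 with hRd
  set δ : ℝ := min (min τ1 τ2) 1 / 2 with hδ
  have hδ0 : 0 < δ := half_pos (lt_min (lt_min hτ1 hτ2) one_pos)
  have hgood : ∀ τ : ℝ, 0 < τ → τ ≤ δ → ∀ w : E d, ‖w‖ = 1 → ‖w - (y - x)‖ ≤ τ →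
      (∀ᵐ z, lz (g z) (g' (z + w)) = 0) → |lz (evv Q z) (evv Q' (z + w))| ≤
        C * (C0 * (J * 2 ^ (4 * D + 1))) * R ^ (D + D) * τ ^ (2 * D + 1) := by
    intro τ hτ hτδ w hw hwτ hz
    have k0 : 2 * τ ≤ min (min τ1 τ2) 1 := by linarith
    have hτ1' : 2 * τ ≤ 1 := k0.trans (min_le_right _ _)
    have k1 : 2 * τ ≤ τ1 := k0.trans ((min_le_left _ _).trans (min_le_left _ _))
    have k2 : 2 * τ ≤ τ2 := k0.trans ((min_le_left _ _).trans (min_le_right _ _))
    have h2τ : 0 < 2 * τ := by positivity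
    have hε : J * (2 * τ) ^ (4 * D + 1) ≤ J :=
      mul_le_of_le_one_right hJ0 (pow_le_one₀ h2τ.le hτ1')
    have t1 := (Edge2x.up h2τ hJ1 (p1 _ h2τ k1)).shift (y := x) (τ := τ) (by linarith) 0
      (by simp; linarith)
    have t2 := (Edge2x.up h2τ hJ2 (p2 _ h2τ k2)).shift (y := x) (τ := τ) (by linarith) w
      (by rw [show x + w - y = w - (y - x) by abel]; linarith)
    have hev : ∀ z, ev (lzp Q fun a => sh w (Q' a)) z = lz (evv Q z) (evv Q' (z + w)) := by
      intro z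
      rw [ev_lzp]
      congr 1
      funext a
      exact ev_sh _ _ _
    have hsub : {z | C0 * (J * (2 * τ) ^ (4 * D + 1)) < |ev (lzp Q fun a => sh w (Q' a)) z|} ∩
        ball x τ ⊆
        (({z | z + 0 ∈ {z | ¬ ∃ l : ℝ, ∀ a, |ev (Q a) z - l * g z a| ≤
            J * (2 * τ) ^ (4 * D + 1)}} ∩ ball x τ) ∪
          ({z | z + w ∈ {z | ¬ ∃ l : ℝ, ∀ a, |ev (Q' a) z - l * g' z a| ≤
            J * (2 * τ) ^ (4 * D + 1)}} ∩ ball x τ)) ∪
          {z | ¬ lz (g z) (g' (z + w)) = 0} := by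
      rintro p ⟨hp, hpx⟩
      by_contra hcon
      simp only [mem_union, mem_inter_iff, hpx, and_true, mem_ofPred_eq, add_zero, not_or,
        not_not] at hcon
      obtain ⟨⟨⟨l, hl⟩, m, hm⟩, h0⟩ := hcon
      rw [mem_ball_iff_norm] at hpx
      have n2 : ‖p + w - y‖ ≤ 1 := by
        have := norm_add_le (p - x) (w - (y - x))
        rw [show p - x + (w - (y - x)) = p + w - y by abel] at this
        linarith
      have := Edge2x.lz_small h0 (a := evv Q p) (b := evv Q' (p + w)) (M := M)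
        (fun i => (b1 p (by linarith) i).trans (le_max_left _ _))
        (fun i => (b2 _ n2 i).trans (le_max_right _ _)) hε hl hm
      rw [mem_ofPred_eq, hev] at hp
      exact absurd this (not_le.mpr hp)
    have hvol : volume ({z | C0 * (J * (2 * τ) ^ (4 * D + 1)) <
        |ev (lzp Q fun a => sh w (Q' a)) z|} ∩ ball x τ) ≤
        2⁻¹ * volume (ball (0 : E d) τ) := by
      refine (measure_mono hsub).trans ((measure_union_le _ _).trans ?_)
      rw [ae_iff.mp hz, add_zero]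
      refine (measure_union_le _ _).trans ((add_le_add t1 t2).trans ?_)
      rw [← add_mul]
      gcongr
      calc (16⁻¹ + 16⁻¹ : ℝ≥0∞) ≤ 4⁻¹ + 4⁻¹ := by
            gcongr <;> norm_num
        _ = 2⁻¹ := by
            rw [← two_mul, show (4 : ℝ≥0∞) = 2 * 2 by norm_num,
              ENNReal.mul_inv (by simp) (by simp), ← mul_assoc,
              ENNReal.mul_inv_cancel (by simp) (by simp), one_mul]
    have h1 := hR _ (deg_lzp dQ fun a => (totalDegree_sh w _).trans (dQ' a)) x τ _ R hτ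
      (by linarith [norm_nonneg (z - x)]) (by positivity) hvol z (by linarith)
    rw [hev] at h1
    refine h1.trans (le_of_eq ?_)
    rw [div_pow, mul_pow]
    field_simp
    ring
  have hev : ∀ w, ev (lzp (fun a => MvPolynomial.C (ev (Q a) z)) fun a => sh z (Q' a)) w =
      lz (evv Q z) (evv Q' (z + w)) := by
    intro w
    rw [ev_lzp]
    congr 1
    · funext a
      exact XI.ev_C _ _
    · funext a
      rw [add_comm]
      exact ev_sh _ _ _
  rw [← hev]
  have hdeg := deg_lzp (Q := fun a => (MvPolynomial.C (ev (Q a) z) : MP d)) (A := 0)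
    (fun a => (MvPolynomial.totalDegree_C _).le) fun a => (totalDegree_sh z _).trans (dQ' a)
  rw [zero_add] at hdeg
  refine sphere hC hS hd hdeg (m := y - x) (by rwa [norm_sub_rev]) (δ := δ)
    (B := C * (C0 * (J * 2 ^ (4 * D + 1))) * R ^ (D + D)) hδ0 ?_ w hw
  intro τ hτ hτj v hv hvτ
  by_contra hcon
  have e1 := ((XI.continuous_ev _).abs.continuousAt (x := v)).eventually
    (lt_mem_nhds (not_le.mp hcon))
  have e2 := ((continuous_id.sub (continuous_const (y := y - x))).norm.continuousAt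
    (x := v)).eventually (gt_mem_nhds hvτ)
  obtain ⟨ε, hε, hb⟩ := Metric.eventually_nhds_iff.mp (e1.and e2)
  obtain ⟨v', h6, h7, h8⟩ := (hS d hd).2.2.2.1 _ hae v hv ε hε
  obtain ⟨b1, b2⟩ := hb (y := v') (by rwa [dist_eq_norm])
  rw [hev] at b1
  exact absurd (hgood τ hτ hτj v' h6 b2.le h8) (not_le.mpr b1)

end Pool.Agent.MP_66cee2_co.H11
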