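import Pool.Agent.MP_66cee2_co.D.SpecA

/-
Maps into spaces of dimension at most `2 d - 1`: the rows of the closure are flat.
-/

namespace Pool.Agent.MP_66cee2_co.H11

open MeasureTheory Set Filter Metric Topology Matrix Pool.Agent.MP_66cee2_co.X
  Pool.Agent.MP_66cee2_co.XI Pool.Agent.MP_66cee2_co.D
open scoped ENNReal RealInnerProductSpace

/-- `Q` (global coordinates) is a multiple of `g` to infinite order at `x`. -/
def PJ {d n : ℕ} (g : E d → Ix n → ℝ) (x : E d) (Q : Ix n → MP d) : Prop :=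
  ∀ K : ℕ, ∃ C : ℝ, ∃ τ₀ > 0, ∀ τ, 0 < τ → τ ≤ τ₀ →
    Thin {z | ¬ ∃ l : ℝ, ∀ a, |ev (Q a) z - l * g z a| ≤ C * τ ^ K} x τ

/-- kernels of rank at most `d + 1`. -/
def SA2p : Prop :=
  ∀ (d n : ℕ) (Q Q' : Ix n → MP d) (W : Submodule ℝ (Ix n → ℝ)), 3 ≤ d →
    Module.finrank ℝ W ≤ d + 1 → (∀ z, evv Q z ∈ W) → EdgeId Q Q' → Ort Q Q'

/-- the clique lemma. -/
def SClqp : Prop :=
  ∀ (d n : ℕ) (Q : Fin (d + 1) → Ix n → MP d), 3 ≤ d → n + 1 ≤ 2 * d → Clq Q →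
    (∃ k l, k ≠ l ∧ IsoQ (Q k) ∧ IsoQ (Q l)) ∨ ∀ k l, k ≠ l → Ort (Q k) (Q l)

/-- the edge identity for two fields. -/
def SEdge2 : Prop :=
  ∀ (d n : ℕ) (g g' : E d → Ix n → ℝ), 2 ≤ d → Measurable g → Measurable g' →
    (AePair fun x y => lz (g x) (g' y) = 0) →
    ∀ x y Q Q', PJ g x Q → PJ g' y Q' → ‖x - y‖ = 1 → EdgeId Q Q'

/-- the rows of the closure are flat. -/
def SFlatA : Prop :=
  ∀ (d n : ℕ) (P : E d → Matrix (Ix n) (Ix n) ℝ) (JA JB : E d → Finset (Ix n))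
    (A B : E d → Ix n → Ix n → ℝ) (u : E d → Ix n → ℝ), 3 ≤ d → n + 1 ≤ 2 * d →
    Gal P JA JB A B → JetField P u → (∀ᵐ x, u x ∈ Submodule.span ℝ (range (A x))) →
    (∀ j, ∀ᵐ y : E d, RatJet fun η : E d => A (y + η) j) →
    (∀ k, ∀ᵐ y : E d, RatJet fun η : E d => B (y + η) k) →
    (AllPair fun x y => ¬ (IsoX u x ∧ IsoX u y)) →
    ∀ j, ∀ᵐ x : E d, ∀ K : ℕ, ∃ C : ℝ, Small fun τ => {η | C * τ ^ K < ‖A (x + η) j - A x j‖}

end Pool.Agent.MP_66cee2_co.H11
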